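import Pool.Agent.UGrp.Out
import Pool.Agent.BGV.Chain

/-!
# MP_fa09f8_nt: isomorphic unit groups at every multiple of a fixed shift

Unconditional: there is `L ≥ 1` such that for every positive multiple `D` of `L` the groups
`(ZMod n)ˣ` and `(ZMod (n + D))ˣ` are isomorphic for infinitely many `n`.
-/

set_option autoImplicit false

namespace Pool.Agent.Results.MP_fa09f8_nt.BoundedShift

theorem result :
    ∃ L : ℕ, 0 < L ∧ ∀ K : ℕ, 0 < K →
      {n : ℕ | Nonempty ((ZMod n)ˣ ≃* (ZMod (n + L * K))ˣ)}.Infinite :=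
  (Pool.Agent.UGrp.soft fun θ _ hθ => Pool.Agent.BGV.bv θ hθ).1

end Pool.Agent.Results.MP_fa09f8_nt.BoundedShift
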