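import Pool.Agent.Cnt.Few

/-!
# MP_fa09f8_nt: counting solutions

Unconditional upper bound for the number of `n ≤ X` with `(ZMod n)ˣ ≃* (ZMod (n + 1))ˣ`, and for the
number of `n ≤ X` with `φ(n) = φ(n+1)`, uniformly in a bound `K` for the numbers of prime factors of
`n` and `n + 1` (`K > X` is no restriction).
-/

set_option autoImplicit false

namespace Pool.Agent.Results.MP_fa09f8_nt.CountingBound

theorem result : ∃ c : ℝ, 0 < c ∧ ∃ X₀ : ℕ, ∀ X : ℕ, X₀ ≤ X → ∀ K : ℕ, 1 ≤ K →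
    ({n : ℕ | 1 ≤ n ∧ n ≤ X ∧ Nonempty ((ZMod n)ˣ ≃* (ZMod (n + 1))ˣ) ∧
        n.primeFactors.card < K ∧ (n + 1).primeFactors.card < K}.ncard : ℝ) ≤
      {n : ℕ | 1 ≤ n ∧ n ≤ X ∧ n.totient = (n + 1).totient ∧
        n.primeFactors.card < K ∧ (n + 1).primeFactors.card < K}.ncard ∧
    ({n : ℕ | 1 ≤ n ∧ n ≤ X ∧ n.totient = (n + 1).totient ∧
        n.primeFactors.card < K ∧ (n + 1).primeFactors.card < K}.ncard : ℝ) ≤
      X * Real.exp (-(c * (Real.log X / Real.log (Real.log X)) *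
        max (Real.log (Real.log (Real.log X))) (Real.log (Real.log X / K)))) := by
  obtain ⟨c, hc, X₀, h⟩ := Pool.Agent.Cnt.count_unif
  refine ⟨c, hc, X₀, fun X hX K hK => ?_⟩
  have hset : {n : ℕ | 1 ≤ n ∧ n ≤ X ∧ n.totient = (n + 1).totient ∧
      n.primeFactors.card < K ∧ (n + 1).primeFactors.card < K} = (Pool.Agent.Cnt.Sf X K : Set ℕ) := by
    ext n
    simp only [Set.mem_setOf_eq, Pool.Agent.Cnt.Sf, Pool.Agent.Cnt.Sol, Pool.Agent.Cnt.om, Finset.coe_filter,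
      Finset.mem_filter, Finset.mem_Icc]
    tauto
  refine ⟨?_, ?_⟩
  · have hsub : {n : ℕ | 1 ≤ n ∧ n ≤ X ∧ Nonempty ((ZMod n)ˣ ≃* (ZMod (n + 1))ˣ) ∧
        n.primeFactors.card < K ∧ (n + 1).primeFactors.card < K} ⊆
        {n : ℕ | 1 ≤ n ∧ n ≤ X ∧ n.totient = (n + 1).totient ∧
          n.primeFactors.card < K ∧ (n + 1).primeFactors.card < K} := by
      rintro n ⟨h1, h2, ⟨e⟩, h3⟩
      refine ⟨h1, h2, ?_, h3⟩
      haveI : NeZero n := ⟨by omega⟩
      have hc := Nat.card_congr e.toEquiv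
      rw [Nat.card_eq_fintype_card, Nat.card_eq_fintype_card, ZMod.card_units_eq_totient,
        ZMod.card_units_eq_totient] at hc
      exact hc
    have hfin : ({n : ℕ | 1 ≤ n ∧ n ≤ X ∧ n.totient = (n + 1).totient ∧
          n.primeFactors.card < K ∧ (n + 1).primeFactors.card < K}).Finite := by
      rw [hset]; exact Finset.finite_toSet _
    exact_mod_cast Set.ncard_le_ncard hsub hfin
  · rw [hset, Set.ncard_coe_finset]
    exact h X hX K hK

end Pool.Agent.Results.MP_fa09f8_nt.CountingBound
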