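import Pool.Agent.UGrp.Tuple
import Pool.Agent.BGV.Chain

/-!
# MP_fa09f8_nt: arbitrarily many moduli in a bounded interval with isomorphic unit groups

Unconditional: for every `m` there is `C` such that for every `K ≥ 1` there are `m` integers
`e ≤ C` for which the `m` groups `(ZMod (n + e K))ˣ` are isomorphic for infinitely many `n`.
-/

set_option autoImplicit false

namespace Pool.Agent.Results.MP_fa09f8_nt.IsomorphicTuples

theorem result :
    ∀ m : ℕ, ∃ C : ℕ, ∀ K : ℕ, 0 < K → ∃ E : Finset ℕ, E.card = m ∧ (∀ e ∈ E, e ≤ C) ∧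
      {n : ℕ | ∀ a ∈ E, ∀ b ∈ E,
        Nonempty ((ZMod (n + a * K))ˣ ≃* (ZMod (n + b * K))ˣ)}.Infinite := by
  have hBV : ∀ θ : ℝ, 0 < θ → θ < 1 / 2 → Pool.Agent.BGG.BVs θ :=
    fun θ _ hθ => Pool.Agent.BGV.bv θ hθ
  intro m
  rcases Nat.eq_zero_or_pos m with rfl | hm
  · exact ⟨0, fun K _ => ⟨∅, rfl, fun e he => absurd he (Finset.notMem_empty e),
      Set.infinite_of_forall_exists_gt fun x => ⟨x + 1, fun a ha => absurd ha (Finset.notMem_empty a),
        Nat.lt_succ_self x⟩⟩⟩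
  · obtain ⟨k, hk⟩ := Pool.Agent.SL.dhlM_of_BV hBV m hm
    exact Pool.Agent.UGrp.tuple_of_DHLM hk

end Pool.Agent.Results.MP_fa09f8_nt.IsomorphicTuples
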