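import Pool.Agent.Sh.Fin
import Pool.Agent.BGV.Chain

/-!
# MP_fa09f8_nt: consecutive moduli, unit groups isomorphic up to two fixed factors

Unconditional: for every finite set `S` of primes there are fixed finite abelian groups `A`, `B` of
orders prime to all `ℓ ∈ S` such that `A × (ZMod n)ˣ ≃* B × (ZMod (n + 1))ˣ` for infinitely many `n`.
-/

set_option autoImplicit false

namespace Pool.Agent.Results.MP_fa09f8_nt.ShiftOne

theorem result :
    ∀ S : Finset ℕ, (∀ ℓ ∈ S, ℓ.Prime) →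
      ∃ (A B : Type) (_ : CommGroup A) (_ : CommGroup B), Finite A ∧ Finite B ∧
        (∀ ℓ ∈ S, ¬ ℓ ∣ Nat.card A ∧ ¬ ℓ ∣ Nat.card B) ∧
        {n : ℕ | Nonempty (A × (ZMod n)ˣ ≃* B × (ZMod (n + 1))ˣ)}.Infinite := by
  have hBV : ∀ θ : ℝ, 0 < θ → θ < 1 / 2 → Pool.Agent.BGG.BVs θ :=
    fun θ _ hθ => Pool.Agent.BGV.bv θ hθ
  intro S hS
  exact Pool.Agent.Sh.shift_one (fun m hm => Pool.Agent.SL.dhlM_of_BV hBV m hm) S hS

end Pool.Agent.Results.MP_fa09f8_nt.ShiftOne
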